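import Mathlib

set_option autoImplicit false

namespace Pool.Agent.H.MP_ea2cf4_gt

open Set Filter Function Topology MeasureTheory ProbabilityTheory

section
variable {X : Type} [AddCommGroup X] [TopologicalSpace X] [MeasurableSpace X]

/-- null-finite set -/
def NF (A : Set X) : Prop :=
  ∃ u : ℕ → X, Tendsto u atTop (𝓝 0) ∧ ∀ x, {n | x + u n ∈ A}.Finite

/-- covered by countably many measurable null-finite sets -/
def σNF (A : Set X) : Prop :=
  ∃ B : ℕ → Set X, (∀ k, MeasurableSet (B k) ∧ NF (B k)) ∧ A ⊆ ⋃ k, B k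

omit [TopologicalSpace X] in
/-- some probability measure vanishes on all translates -/
def HN (B : Set X) : Prop :=
  ∃ μ : Measure X, IsProbabilityMeasure μ ∧ ∀ x, μ ((· + x) '' B) = 0

omit [MeasurableSpace X] in
/-- all translates have meager preimage under a continuous map from a compact metric space -/
def HM (B : Set X) : Prop :=
  ∃ (K : Type) (_ : MetricSpace K), CompactSpace K ∧ Nonempty K ∧ ∃ f : K → X, Continuous f ∧
    ∀ x, IsMeagre (f ⁻¹' ((· + x) '' B))

end

/-- the product of the cyclic groups of order 2, 3, 4, ... -/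
abbrev G := ∀ n : ℕ, ZMod (n + 2)

/-- the points with no zero coordinate -/
def A : Set G := {x | ∀ n, x n ≠ 0}

theorem cl : IsClosed A := by
  simp only [A, ofPred_forall]
  exact isClosed_iInter fun n => (isClosed_discrete {a | a ≠ 0}).preimage (continuous_apply n)

theorem tr (x : G) : (· + x) '' A ⊆ {z | ∀ n, z n ≠ x n} := by
  rintro _ ⟨z, hz, rfl⟩ n
  simpa using hz n

theorem hn : HN A := by
  refine ⟨Measure.infinitePi fun n => uniformOn univ, inferInstance, fun x => ?_⟩
  have h1 : ∀ n, uniformOn univ ({x n}ᶜ : Set (ZMod (n + 2))) * (n + 2) = n + 1 := fun n => by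
    have := congrArg (· * ((n : ENNReal) + 2)) (prob_add_prob_compl (μ := uniformOn univ)
      (measurableSet_singleton (x n)))
    simp only [add_mul, uniformOn_univ (s := {x n}), Measure.count_singleton, ZMod.card] at this
    rw [Nat.cast_add, Nat.cast_ofNat, ENNReal.div_mul_cancel (by simp) (by simp), one_mul] at this
    exact (ENNReal.add_right_inj ENNReal.one_ne_top).1 (this.trans (by ring))
  have h2 : ∀ N : ℕ, (∏ n ∈ Finset.range N, uniformOn univ ({x n}ᶜ : Set (ZMod (n + 2)))) *
      (N + 1) = 1 := fun N => by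
    induction N with
    | zero => simp
    | succ N ih => rw [Finset.prod_range_succ, Nat.cast_succ, add_assoc, one_add_one_eq_two,
        mul_assoc, h1, ih]
  by_contra h
  obtain ⟨N, hN⟩ := ENNReal.exists_inv_nat_lt h
  refine hN.not_ge ((measure_mono (t := Set.pi (Finset.range N) fun n => {x n}ᶜ)
    fun z hz n _ => tr x hz n).trans ?_)
  rw [Measure.infinitePi_pi _ fun _ _ => (measurableSet_singleton _).compl,
    ENNReal.le_inv_iff_mul_le, ← h2 N]
  gcongr
  exact le_self_add

theorem hm : HM A := by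
  let := TopologicalSpace.metrizableSpaceMetric G
  refine ⟨G, this, inferInstance, inferInstance, id, continuous_id, fun x =>
    mem_of_superset (residual_of_dense_open (s := ⋃ n, {z : G | z n = x n}) (isOpen_iUnion
      fun n => (isOpen_discrete {x n}).preimage (f := fun z : G => z n) (by fun_prop)) fun z => ?_)
        fun z hz h => (mem_iUnion.1 hz).elim (tr x h)⟩
  refine mem_closure_of_tendsto (f := fun n => update z n (x n)) (b := atTop)
    (tendsto_pi_nhds.2 fun i => tendsto_const_nhds.congr' ((eventually_gt_atTop i).mono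
      fun n hn => (update_of_ne hn.ne _ _).symm)) (Eventually.of_forall fun n =>
        mem_iUnion.2 ⟨n, update_self _ _ _⟩)

theorem gen {R O : Set (ℕ → ZMod 2)} (hR : R ∈ residual _) (o1 : IsOpen O) (o2 : O.Nonempty)
    (k : ℕ) : ∃ ε : ℕ → ZMod 2, ∀ N, ∃ j, N ≤ j ∧ j.unpair.1 = k ∧ ε j = 0 ∧
      ε + Pi.single j 1 ∈ R ∩ O := by
  have t : ∀ (ε : ℕ → ZMod 2) (a : ℕ → ZMod 2) (n : ℕ → ℕ), Tendsto n atTop atTop →
      Tendsto (fun j => ε + Pi.single (n j) (a j)) atTop (𝓝 ε) := fun ε a n hn =>
    tendsto_pi_nhds.2 fun i => tendsto_const_nhds.congr' ((hn.eventually_gt_atTop i).mono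
      fun n hn => by simp [Pi.single_eq_of_ne hn.ne])
  have h1 : ∀ᶠ ε in residual (ℕ → ZMod 2), ∀ j, ε + Pi.single j 1 ∈ R :=
    eventually_countable_forall.2 fun j =>
      tendsto_residual_of_isOpenMap (by fun_prop) (isOpenMap_add_right _) hR
  have h2 : ∀ᶠ ε in residual (ℕ → ZMod 2), ∀ N, ε ∈ ⋃ j ≥ N, {ε | ε (Nat.pair k j) = 0} :=
    eventually_countable_forall.2 fun N => residual_of_dense_open (isOpen_biUnion fun j _ =>
      (isOpen_discrete {0}).preimage (continuous_apply _)) fun ε => mem_closure_of_tendsto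
        (t ε (fun j => -ε (Nat.pair k j)) _ (tendsto_atTop_mono (Nat.right_le_pair k) tendsto_id))
        ((eventually_ge_atTop N).mono fun j hj => mem_biUnion hj (by simp [CharTwo.add_self_eq_zero]))
  obtain ⟨ε, e1, e2, e3⟩ := (dense_of_mem_residual (h1.and h2)).inter_open_nonempty O o1 o2
  obtain ⟨M, hM⟩ := eventually_atTop.1 (t ε 1 id tendsto_id (o1.mem_nhds e1))
  refine ⟨ε, fun N => ?_⟩
  obtain ⟨j, j1, j2⟩ := mem_iUnion₂.1 (e3 (max N M))
  have := j1.trans (Nat.right_le_pair k j)
  exact ⟨_, le_of_max_le_left this, by simp, j2, e2 _, hM _ (le_of_max_le_right this)⟩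

theorem nf : ¬ σNF A := by
  classical
  rintro ⟨B, hB, hA⟩
  choose u u1 u2 using fun k => (hB k).2
  have : ∀ j : ℕ, ∃ n, j ≤ n ∧ ∀ i < 2 ^ (j + 1), u j.unpair.1 n i = 0 := fun j =>
    ((eventually_ge_atTop j).and ((finite_Iio (2 ^ (j + 1))).eventually_all (p := fun i n =>
      u j.unpair.1 n i = 0) |>.2 fun i _ => tendsto_pi_nhds.1 (u1 _) i
        ((isOpen_discrete {0}).mem_nhds rfl))).exists
  choose n n1 n2 using this
  have : ∀ i, ∃ y : ZMod (i + 2), y ∉ (Finset.range (Nat.log 2 i)).powerset.image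
      fun S => -∑ j ∈ S, u j.unpair.1 (n j) i := fun i => by
    refine (Finset.exists_mem_notMem_of_card_lt_card (Finset.card_image_le.trans_lt
      (?_ : _ < Finset.univ.card))).imp fun _ h => h.2
    rw [Finset.card_powerset, Finset.card_range, Finset.card_univ, ZMod.card]
    rcases i.eq_zero_or_pos with rfl | h
    · simp
    · exact (Nat.pow_log_le_self 2 h.ne').trans_lt (by omega)
  choose y hy using this
  let φ : (ℕ → ZMod 2) → G := fun ε i => y i + ∑ j ∈ Finset.range (Nat.log 2 i),
    if ε j ≠ 0 then u j.unpair.1 (n j) i else 0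
  have h1 : Continuous φ := continuous_pi fun i => continuous_const.add (continuous_finsetSum _
    fun j _ => (continuous_of_discreteTopology (f := fun a : ZMod 2 =>
      if a ≠ 0 then u j.unpair.1 (n j) i else 0)).comp (continuous_apply j))
  have h2 : ∀ ε, φ ε ∈ A := fun ε i h => hy i (Finset.mem_image.2 ⟨_, Finset.mem_powerset.2
    (Finset.filter_subset (ε · ≠ 0) _), by
      rw [Finset.sum_filter]
      exact (eq_neg_of_add_eq_zero_left h).symm⟩)
  have h3 : ∀ ε j, ε j = 0 → φ ε + u j.unpair.1 (n j) = φ (ε + Pi.single j 1) := fun ε j h => by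
    ext i
    have : u j.unpair.1 (n j) i = ∑ l ∈ Finset.range (Nat.log 2 i),
        if l = j then u j.unpair.1 (n j) i else 0 := by
      rw [Finset.sum_ite_eq']
      split_ifs with h
      · rfl
      · exact n2 j i ((Nat.lt_pow_succ_log_self one_lt_two i).trans_le
          (Nat.pow_le_pow_right two_pos (by simpa using h)))
    simp only [φ, Pi.add_apply]
    rw [this, add_assoc, ← Finset.sum_add_distrib]
    congr 2 with l
    by_cases e : l = j
    · simp [e, h]
    · simp [e]
  obtain ⟨k, hk⟩ : ∃ k, ¬ IsMeagre (φ ⁻¹' B k) := not_forall.1 fun h =>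
    not_isMeagre_of_isOpen isOpen_univ univ_nonempty ((isMeagre_iUnion h).mono fun ε _ => by
      simpa using hA (h2 ε))
  obtain ⟨O, o1, o2⟩ := (h1.measurable (hB k).1).residualEq_isOpen
  obtain ⟨ε, hε⟩ := gen (eventuallyEq_set.1 o2) o1 (nonempty_iff_ne_empty.2 fun h => hk
    (mem_of_superset (eventuallyEq_set.1 o2) fun ε h1 h2 => by simpa [h] using h1.1 h2)) k
  refine infinite_of_forall_exists_gt (fun N => ?_) (u2 k (φ ε))
  obtain ⟨j, j1, rfl, j2, j3, j4⟩ := hε (N + 1)
  refine ⟨n j, ?_, j1.trans (n1 j)⟩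
  rw [mem_ofPred_eq, h3 ε j j2]
  exact j3.2 j4

end Pool.Agent.H.MP_ea2cf4_gt
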